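import Pool.Agent.K1H74.Mot.Defs
import Pool.Agent.K1H74.BB.CK

/-!
# Comparison of the definitions with those used in the proofs
-/

set_option autoImplicit false

open CategoryTheory AlgebraicGeometry

universe u v w

namespace Pool.Agent.K1H74.Mot

open Pool.Agent.H914 Pool.Agent.H914.VarClass Pool.Agent.H914.VarClass.Obj Pool.Agent.W492.BB
  Pool.Agent.W550.Corr Pool.Agent.TH133

set_option linter.unusedSectionVars false
set_option linter.unusedVariables false

variable {k : Type u} [Field k] {𝒱 : VarClass k}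

section chow

variable {C : TheoryData.{u, v, 0} 𝒱 ℚ} [hC : IsChowProj C] {X Y Z W : 𝒱.Obj}

lemma degOne_iff {x : C.A X} : DegOne x ↔ HasDegree C x 1 := by
  unfold DegOne HasDegree
  simp only [one_smul]
  exact Iff.rfl

lemma fibre_iff : FibreProperty C ↔ Y148.BB.FibreProperty C := Iff.rfl

lemma pencil_iff {𝒲 : 𝒱.Obj → Prop} {S : 𝒱.Obj} {x : C.A S} :
    PencilProperty 𝒲 x ↔ BB.PencilProperty C 𝒲 x := by
  unfold PencilProperty BB.PencilProperty
  simp only [degOne_iff]
  exact Iff.rfl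

lemma through_iff {𝒲 : 𝒱.Obj → Prop} {S : 𝒱.Obj} {a d e : ℤ} (hd : (S.dim : ℤ) - a = d)
    (he : 1 + a = e) {c : C.A (S.prod S)} :
    ThroughCurves 𝒲 a c ↔ c ∈ Submodule.span ℚ {c | ∃ (T : 𝒱.Obj) (o : C.A T)
      (f : C.A (S.prod T)) (g : C.A (T.prod S)), 𝒲 T ∧ T.dim = 1 ∧ C.Deg 1 o ∧
      HasDegree C o 1 ∧ C.Deg d f ∧ C.Deg e g ∧
      c = C.comp f (C.comp (Y148.BB.oddProj C o) g)} := by
  subst hd he
  unfold ThroughCurves Comb
  simp only [degOne_iff]
  exact Iff.rfl

end chow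

section weil

variable {C : TheoryData.{u, v, 0} 𝒱 ℚ} [hC : IsChowProj C] {K : Type w} [Field K]
  {H : WeilTheoryData.{u, v, w} C K} [hH : IsWeilProj H] {X Y Z W T P S A B : 𝒱.Obj}
  {𝒲 : 𝒱.Obj → Prop}

lemma ck_iff {π : ℕ → C.A (X.prod X)} : CKDec H X π ↔ IsCK H X π := by
  constructor
  · intro h
    exact ⟨h.deg, h.out, h.idem, h.orth, h.sum, h.act_self,
      fun i m a hm ha => h.act_ne i m hm a ha⟩
  · intro h
    exact ⟨h.deg, h.out, h.idem, h.orth, h.sum, h.act_self,
      fun i m hm a ha => h.act_ne i m a hm ha⟩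

lemma trans_iff {q : C.A (S.prod S)} :
    IsTranscendental 𝒲 H S q ↔ BB.IsTranscendental 𝒲 H S q := by
  constructor
  · intro h
    obtain ⟨x, π, h1, h2, h3, h4, h5, h6, h7, h8, h9, h10⟩ := h.exists_ck
    have hd := h.dim_eq
    exact ⟨hd, h.deg, h.idem, h.self_dual, h.divisor,
      ⟨x, π, h1, degOne_iff.1 h2, pencil_iff.1 h3, ck_iff.1 h4, h5, h6, h7, h8,
        (through_iff (by rw [hd]; norm_num) (by norm_num)).1 h9,
        (through_iff (by rw [hd]; norm_num) (by norm_num)).1 h10⟩⟩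
  · intro h
    obtain ⟨x, π, h1, h2, h3, h4, h5, h6, h7, h8, h9, h10⟩ := h.exists_ck
    have hd := h.dim_eq
    exact ⟨hd, h.deg, h.idem, h.self_dual, h.divisor,
      ⟨x, π, h1, degOne_iff.2 h2, pencil_iff.2 h3, ck_iff.2 h4, h5, h6, h7, h8,
        (through_iff (by rw [hd]; norm_num) (by norm_num)).2 h9,
        (through_iff (by rw [hd]; norm_num) (by norm_num)).2 h10⟩⟩

lemma factor_of {n : ℕ} {r : C.A (T.prod T)} (h : IsFactor 𝒲 H n T r) :
    BB.IsFactor 𝒲 H n T r := by
  induction h with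
  | curve T o hT hd ho h1 => exact BB.IsFactor.curve T o hT hd ho (degOne_iff.1 h1)
  | surface S q hS h => exact BB.IsFactor.surface S q hS (trans_iff.1 h)
  | sections n W r hW hd hr idem sd kills 𝒴 hf hi hp ih =>
    exact BB.IsFactor.sections n W r hW hd hr idem sd
      (fun l hl => kills l (by exact_mod_cast hl)) 𝒴 ih hi hp

lemma of_factor {n : ℕ} {r : C.A (T.prod T)} (h : BB.IsFactor 𝒲 H n T r) :
    IsFactor 𝒲 H n T r := by
  induction h with
  | curve T o hT hd ho h1 => exact IsFactor.curve T o hT hd ho (degOne_iff.2 h1)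
  | surface S q hS h => exact IsFactor.surface S q hS (trans_iff.2 h)
  | sections n W r hW hd hr idem sd kills 𝒴 hf hi hp ih =>
    exact IsFactor.sections n W r hW hd hr idem sd
      (fun l hl => kills l (by exact_mod_cast hl)) 𝒴 ih hi hp

lemma factor_iff {n : ℕ} {r : C.A (T.prod T)} :
    IsFactor 𝒲 H n T r ↔ BB.IsFactor 𝒲 H n T r := ⟨factor_of, of_factor⟩

lemma part_iff {n : ℕ} {p : C.A (P.prod P)} : IsPart 𝒲 H n P p ↔ BB.IsPart 𝒲 H n P p := by
  constructor
  · intro h
    induction h with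
    | factor n T r hr => exact BB.IsPart.factor n T r (factor_of hr)
    | prod n m P T p r _ hr ih => exact BB.IsPart.prod n m P T p r ih (factor_of hr)
  · intro h
    induction h with
    | factor n T r hr => exact IsPart.factor n T r (of_factor hr)
    | prod n m P T p r _ hr ih => exact IsPart.prod n m P T p r ih (of_factor hr)

lemma built_iff {d : ℕ∞} : BuiltFrom 𝒲 H d X ↔ BB.BuiltFrom 𝒲 H d X := by
  unfold BuiltFrom BB.BuiltFrom Comb
  simp only [part_iff]
  exact Iff.rfl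

lemma built_eq {d : ℕ∞} : BuiltFrom 𝒲 H d = BB.BuiltFrom 𝒲 H d := by
  funext X
  exact propext built_iff

lemma generated_iff : Generated 𝒲 H ↔ BB.Generated 𝒲 H := by
  unfold Generated BB.Generated
  simp only [built_iff]

lemma aj_iff {N : Kers C} {j : ℕ} : AJInjective 𝒲 H N j ↔ BB.AJInjective 𝒲 H N j := by
  unfold AJInjective BB.AJInjective
  simp only [part_iff]
  exact Iff.rfl

lemma class_iff {j : ℕ} : ClassInjective 𝒲 H j ↔ BB.ClassInjective 𝒲 H j := by
  unfold ClassInjective BB.ClassInjective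
  simp only [part_iff]
  exact Iff.rfl

lemma kernel_iff {N : Kers C} : IsAbelJacobiKernel H N ↔ Y148.BB.IsAbelJacobiKernel H N :=
  ⟨fun h => ⟨h.deg, h.stable, h.kills, h.abel⟩, fun h => ⟨h.deg, h.stable, h.kills, h.abel⟩⟩

lemma weak_iff {S : 𝒱.Obj → Prop} {F : Steps C} : IsWeakOn H S F ↔ BB.IsWeakOn H S F := by
  constructor
  · intro h
    refine ⟨fun X hX j ν z => h.anti X hX j ν z, h.zero, h.one, fun X hX j => ?_, h.stable,
      h.shift⟩
    rw [eq_bot_iff]
    exact fun z hz => (Submodule.mem_bot _).2 (h.top X hX j z hz)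
  · intro h
    refine ⟨fun X hX j ν z hz => h.anti X hX j ν hz, h.zero, h.one, fun X hX j z hz => ?_,
      h.stable, h.shift⟩
    have h1 : z ∈ F X j (j + 1) := hz
    rw [h.top X hX j] at h1
    exact (Submodule.mem_bot _).1 h1

lemma bb_iff {N : Kers C} {S : 𝒱.Obj → Prop} {F : Steps C} :
    IsBlochBeilinsonOn H N S F ↔ Y148.BB.IsBlochBeilinsonOn H N S F := by
  constructor
  · intro h
    have h1 := weak_iff.1 h.toIsWeakOn
    refine ⟨h1.anti, h1.zero, h1.one, fun X hX j => ?_, h1.top, h1.stable, h1.shift⟩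
    ext z
    exact h.two X hX j z
  · intro h
    refine ⟨weak_iff.2 (BB.weak_of_bb h), fun X hX j z => ?_⟩
    change z ∈ F X j 2 ↔ z ∈ N X j
    rw [h.two X hX j]

end weil

end Pool.Agent.K1H74.Mot
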