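import Pool.Agent.TH133.Defs

/-!
# Motives built from curves, surfaces and sections: definitions

`C` is a theory with the formal properties of the Chow groups with rational coefficients of the
varieties of the class `𝒱`, and `H` a Weil cohomology theory.
-/

set_option autoImplicit false

open CategoryTheory AlgebraicGeometry

universe u v w

namespace Pool.Agent.K1H74.Mot

open Pool.Agent.H914 Pool.Agent.H914.VarClass Pool.Agent.H914.VarClass.Obj Pool.Agent.W492.BB

variable {k : Type u} [Field k] {𝒱 : VarClass k}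

noncomputable section

variable (C : TheoryData.{u, v, 0} 𝒱 ℚ) {X Y Z W : 𝒱.Obj}

/-- Families of subspaces: `N X j` is a subspace of `CH(X)`. -/
abbrev Kers := ∀ X : 𝒱.Obj, ℕ → Submodule ℚ (C.A X)

/-- The steps of families of filtrations: `F X j ν` is `F^ν CH^j(X)`. -/
abbrev Steps := ∀ X : 𝒱.Obj, ℕ → ℕ → Submodule ℚ (C.A X)

/-- The fundamental class of `X`. -/
def one (X : 𝒱.Obj) : C.A X := 1

variable {C}

/-- The class `z` is zero. -/
def Null (z : C.A X) : Prop := z = 0

/-- The class `z` lies in the subspace `V`. -/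
def In (V : Submodule ℚ (C.A X)) (z : C.A X) : Prop := z ∈ V

/-- The class `z` is a linear combination, with rational coefficients, of classes `c` such that
`s c`. -/
def Comb (s : C.A X → Prop) (z : C.A X) : Prop := z ∈ Submodule.span ℚ {c | s c}

/-- The difference `a - b`. -/
def diff (a b : C.A X) : C.A X := a - b

/-- The external product `x × y`. -/
def cross (x : C.A X) (y : C.A Y) : C.A (X.prod Y) :=
  C.mul (C.up (fst X Y) x) (C.up (snd X Y) y)

/-- The composition `Δ ∘ Γ` of the correspondences `Γ` from `X` to `Y` and `Δ` from `Y` to `Z`. -/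
def cmp (Γ : C.A (X.prod Y)) (Δ : C.A (Y.prod Z)) : C.A (X.prod Z) :=
  C.down (prodMap (fst X Y) (𝟙 Z))
    (C.mul (C.up (prodMap (snd X Y) (𝟙 Z)) Δ) (C.up (fst (X.prod Y) Z) Γ))

/-- The transpose of a correspondence. -/
def transp (Γ : C.A (X.prod Y)) : C.A (Y.prod X) := C.up (Obj.lift (snd Y X) (fst Y X)) Γ

/-- The external product of the correspondences `Γ` from `X` to `Y` and `Δ` from `Z` to `W`. -/
def times (Γ : C.A (X.prod Y)) (Δ : C.A (Z.prod W)) : C.A ((X.prod Z).prod (Y.prod W)) :=
  C.mul (C.up (prodMap (fst X Z) (fst Y W)) Γ) (C.up (prodMap (snd X Z) (snd Y W)) Δ)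

variable (C)

/-- The graph of the morphism `f`. -/
def grph (f : X ⟶ Y) : C.A (X.prod Y) := C.down (Obj.lift (𝟙 X) f) (one C X)

/-- The class of the diagonal. -/
def diag (X : 𝒱.Obj) : C.A (X.prod X) := grph C (𝟙 X)

variable {C}

/-- The zero-cycle `x` has degree one: the push-forward of `x × Y` to `Y` is the fundamental class
of `Y`, for all `Y`. -/
def DegOne (x : C.A X) : Prop :=
  ∀ Y : 𝒱.Obj, C.down (snd X Y) (C.up (fst X Y) x) = one C Y ∧
    C.down (fst Y X) (C.up (snd Y X) x) = one C Y

/-- The projector `Δ_T - o × T - T × o` on `h^1(T)`, for a curve `T`. -/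
def oddPart {T : 𝒱.Obj} (o : C.A T) : C.A (T.prod T) :=
  diff (diff (diag C T) (cross o (one C T))) (cross (one C T) o)

variable (C)

/-- The property of the Chow groups of varieties over an uncountable algebraically closed field that
a class on `X × T`, `T` a curve, whose restrictions to all the fibres `X × t` vanish, is a sum of
classes `x × t` (Bloch and Srinivas). -/
def FibreProperty : Prop :=
  ∀ (X T : 𝒱.Obj) (j : ℤ) (z : C.A (X.prod T)), T.dim = 1 → C.Deg j z →
    (∀ t : C.A T, C.Deg 1 t → Null (C.down (fst X T) (C.mul z (C.up (snd X T) t)))) →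
    Comb (fun c => ∃ (x : C.A X) (t : C.A T), C.Deg (j - 1) x ∧ C.Deg 1 t ∧ c = cross x t) z

variable {C} (𝒲 : 𝒱.Obj → Prop)

/-- The property of a pencil of curves on the surface `S` through the point `x` (Bloch and
Srinivas): a class on `P × S` whose restrictions to `P × T` vanish, for all the curves `T → S` in the
family `𝒲` which carry a zero-cycle `o` of degree one with image `x` (such as the smooth members of
the pencil), is a sum of push-forwards of classes on products `P × T` with curves `T → S` in `𝒲` (the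
normalisations of members of the pencil). -/
def PencilProperty {S : 𝒱.Obj} (x : C.A S) : Prop :=
  ∀ (P : 𝒱.Obj) (j : ℤ) (z : C.A (P.prod S)), C.Deg j z →
    (∀ (T : 𝒱.Obj) (i : T ⟶ S) (o : C.A T), 𝒲 T → T.dim = 1 → C.Deg 1 o → DegOne o →
      C.down i o = x → Null (C.up (prodMap (𝟙 P) i) z)) →
    Comb (fun c => ∃ (T : 𝒱.Obj) (i : T ⟶ S) (w : C.A (P.prod T)), 𝒲 T ∧ T.dim = 1 ∧
      C.Deg (j - 1) w ∧ c = C.down (prodMap (𝟙 P) i) w) z

/-- The correspondence `c` of degree zero is a linear combination of compositions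
`X → T → T → X` of a correspondence of degree `-a`, the projector on `h^1(T)`, and a correspondence
of degree `a`, for curves `T` in `𝒲`. -/
def ThroughCurves (a : ℤ) (c : C.A (X.prod X)) : Prop :=
  Comb (fun c => ∃ (T : 𝒱.Obj) (o : C.A T) (f : C.A (X.prod T)) (g : C.A (T.prod X)), 𝒲 T ∧
    T.dim = 1 ∧ C.Deg 1 o ∧ DegOne o ∧ C.Deg (X.dim - a) f ∧ C.Deg (1 + a) g ∧
    c = cmp f (cmp (oddPart o) g)) c

end

section weil

variable {C : TheoryData.{u, v, 0} 𝒱 ℚ} {K : Type w} [Field K]

/-- The cycle `z` is homologically trivial. -/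
def HomTrivial (H : WeilTheoryData.{u, v, w} C K) {X : 𝒱.Obj} (z : C.A X) : Prop := H.cl z = 0

/-- A Chow-Kunneth decomposition of `X`: mutually orthogonal idempotent self-correspondences
`π 0, …, π (2 dim X)` of degree zero with sum the diagonal, such that `π i` acts as the identity on
`H^i(X)` and as zero on `H^m(X)` for `m ≠ i`. -/
structure CKDec (H : WeilTheoryData.{u, v, w} C K) (X : 𝒱.Obj) (π : ℕ → C.A (X.prod X)) :
    Prop where
  deg : ∀ i, C.Deg X.dim (π i)
  out : ∀ i, 2 * X.dim < i → Null (π i)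
  idem : ∀ i, cmp (π i) (π i) = π i
  orth : ∀ i j, i ≠ j → Null (cmp (π i) (π j))
  sum : ∑ i ∈ Finset.range (2 * X.dim + 1), π i = diag C X
  act_self : ∀ (i : ℕ) (a : H.A X), H.Deg i a → H.act (H.cl (π i)) a = a
  act_ne : ∀ (i : ℕ) (m : ℤ), m ≠ i → Kills H (π i) m

variable (𝒲 : 𝒱.Obj → Prop) (H : WeilTheoryData.{u, v, w} C K)

/-- The correspondence `q` is the projector on the transcendental part `t_2(S)` of the motive of
the surface `S` (Murre; Kahn, Murre, Pedrini), with respect to the curves in the family `𝒲`: `q` is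
a self-dual idempotent which acts as zero on divisors, and there are a zero-cycle `x` of degree one
(a point), with a pencil of curves in `𝒲` through it, and a Chow-Kunneth decomposition `π` of `S`
such that `π 0 = x × S`, `π 4 = S × x`, `π 1` and `π 3` factor through the motives `h^1` of curves in
`𝒲`, `q` is a direct summand of `π 2`, and `π 2 - q` is a linear combination of products of
divisors. If `𝒲` contains all curves then every surface over an uncountable algebraically closed
field has such a projector. -/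
structure IsTranscendental (S : 𝒱.Obj) (q : C.A (S.prod S)) : Prop where
  dim_eq : S.dim = 2
  deg : C.Deg 2 q
  idem : cmp q q = q
  self_dual : transp q = q
  divisor : ∀ D : C.A S, C.Deg 1 D → Null (C.act q D)
  exists_ck : ∃ (x : C.A S) (π : ℕ → C.A (S.prod S)), C.Deg 2 x ∧ DegOne x ∧
    PencilProperty 𝒲 x ∧ CKDec H S π ∧ π 0 = cross x (one C S) ∧ π 4 = cross (one C S) x ∧
    cmp (π 2) q = q ∧
    Comb (fun c => ∃ D D' : C.A S, C.Deg 1 D ∧ C.Deg 1 D' ∧ c = cross D D') (diff (π 2) q) ∧
    ThroughCurves 𝒲 0 (π 1) ∧ ThroughCurves 𝒲 1 (π 3)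

/-- `IsFactor n T r`: the variety `T` of dimension `n` belongs to the family `𝒲`, and `r` is a
projector on a direct factor of weight `n` of its motive, of one of the following kinds:
* `T` is a curve and `r` is the projector `Δ - o × T - T × o` on `h^1(T)`, with `o` a zero-cycle of
  degree one;
* `T` is a surface and `r` is a projector on `t_2(T)`;
* `T = W` has dimension `n + 1 ≥ 2`, `r` is a self-dual idempotent which acts as zero on the
  cohomology outside the degree `n + 1`, and there is a family `𝒴` of varieties `i : Y → W` of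
  dimension `n` with factors `(Y, s)`, such that `i^*` maps `(W, r)` to `(Y, s)`, with the property of
  Bloch and Srinivas: a class on `P × W` whose restrictions to `P × Y` vanish for all `Y` in `𝒴` is a
  sum of push-forwards of classes on the varieties `P × Y`, `Y` in `𝒴`. (The model case: `W` is a
  complete intersection, `r` the projector on its primitive motive, and `𝒴` consists of members of
  pencils of hyperplane sections and resolutions of them.) -/
inductive IsFactor : ℕ → (T : 𝒱.Obj) → C.A (T.prod T) → Prop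
  | curve (T : 𝒱.Obj) (o : C.A T) (hT : 𝒲 T) (hd : T.dim = 1) (ho : C.Deg 1 o)
      (h1 : DegOne o) : IsFactor 1 T (oddPart o)
  | surface (S : 𝒱.Obj) (q : C.A (S.prod S)) (hS : 𝒲 S) (h : IsTranscendental 𝒲 H S q) :
      IsFactor 2 S q
  | sections (n : ℕ) (W : 𝒱.Obj) (r : C.A (W.prod W)) (hW : 𝒲 W) (hd : W.dim = n + 1)
      (hr : C.Deg W.dim r) (idem : cmp r r = r) (self_dual : transp r = r)
      (kills : ∀ l : ℤ, l ≠ n + 1 → Kills H r l)
      (𝒴 : (Y : 𝒱.Obj) → (Y ⟶ W) → C.A (Y.prod Y) → Prop)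
      (hf : ∀ (Y : 𝒱.Obj) (i : Y ⟶ W) (s : C.A (Y.prod Y)), 𝒴 Y i s → IsFactor n Y s)
      (hi : ∀ (Y : 𝒱.Obj) (i : Y ⟶ W) (s : C.A (Y.prod Y)), 𝒴 Y i s →
        cmp r (cmp (transp (grph C i)) s) = cmp r (transp (grph C i)))
      (hp : ∀ (P : 𝒱.Obj) (j : ℤ) (z : C.A (P.prod W)), C.Deg j z →
        (∀ (Y : 𝒱.Obj) (i : Y ⟶ W) (s : C.A (Y.prod Y)), 𝒴 Y i s →
          Null (C.up (prodMap (𝟙 P) i) z)) →
        Comb (fun c => ∃ (Y : 𝒱.Obj) (i : Y ⟶ W) (s : C.A (Y.prod Y)) (w : C.A (P.prod Y)),
          𝒴 Y i s ∧ C.Deg (j - 1) w ∧ c = C.down (prodMap (𝟙 P) i) w) z) :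
      IsFactor (n + 1) W r

/-- `IsPart n P p`: the variety `P` is a product of varieties `T_1, …, T_m`, `m ≥ 1`, and `p` is the
external product of projectors `r_k` as in `IsFactor`; the number `n` is the dimension of `P`. So
`(P, p)` is the motive `(T_1, r_1) ⊗ ⋯ ⊗ (T_m, r_m)` of weight `n`, for instance
`h^1(T_1) ⊗ ⋯ ⊗ h^1(T_s) ⊗ t_2(S_1) ⊗ ⋯ ⊗ t_2(S_r)`, with `n = s + 2r`. -/
inductive IsPart : ℕ → (P : 𝒱.Obj) → C.A (P.prod P) → Prop
  | factor (n : ℕ) (T : 𝒱.Obj) (r : C.A (T.prod T)) (hr : IsFactor 𝒲 H n T r) : IsPart n T r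
  | prod (n m : ℕ) (P T : 𝒱.Obj) (p : C.A (P.prod P)) (r : C.A (T.prod T)) (hp : IsPart n P p)
      (hr : IsFactor 𝒲 H m T r) : IsPart (n + m) (P.prod T) (times p r)

/-- The correspondence `c` is a product `y × y'` of cycles of complementary codimensions. -/
def Split {X : 𝒱.Obj} (c : C.A (X.prod X)) : Prop :=
  ∃ (a : ℕ) (y y' : C.A X), C.Deg (X.dim - a) y ∧ C.Deg a y' ∧ c = cross y y'

/-- The Chow motive of `X` is a direct summand of a finite direct sum of Tate motives and of motives
`(P, p)(-a)`, `a ≥ 0`, with `(P, p)` as in `IsPart`, of weight at most `d` (`d = ⊤`: of any weight).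
In terms of cycles: the diagonal of `X` is a linear combination of compositions `g ∘ p ∘ f` with
correspondences `f ∈ CH^(dim X - a)(X × P)` and `g ∈ CH^(dim P + a)(P × X)`, and of products `y × y'`
with `y ∈ CH^(dim X - a)(X)` and `y' ∈ CH^a(X)`. -/
def BuiltFrom (d : ℕ∞) (X : 𝒱.Obj) : Prop :=
  Comb (fun c => (∃ (n : ℕ) (P : 𝒱.Obj) (p : C.A (P.prod P)) (a : ℕ) (f : C.A (X.prod P))
      (g : C.A (P.prod X)), IsPart 𝒲 H n P p ∧ n ≤ d ∧ C.Deg (X.dim - a) f ∧
      C.Deg (P.dim + a) g ∧ c = cmp f (cmp p g)) ∨ Split c) (diag C X)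

/-- Every member `W` of the family `𝒲` is built from parts of weight at most `dim W`. (This holds
for curves, for surfaces with a projector as in `IsTranscendental`, and for varieties with a factor
`r` such that `Δ - r` is a linear combination of products of cycles, such as complete
intersections.) -/
def Generated : Prop := ∀ W, 𝒲 W → BuiltFrom 𝒲 H W.dim W

/-- The Abel-Jacobi maps are injective on the cycles of codimension `j` of the motives `(P, p)` of
weight `2 j - 1` as in `IsPart`: a class `z ∈ CH^j(P)` in the kernel `N P j` of the Abel-Jacobi map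
such that `p_* z = z` is zero. -/
def AJInjective (N : Kers C) (j : ℕ) : Prop :=
  ∀ (P : 𝒱.Obj) (p : C.A (P.prod P)), IsPart 𝒲 H (2 * j - 1) P p →
    ∀ z, In (N P j) z → C.act p z = z → Null z

/-- The cycle class maps are injective on the cycles of codimension `j` of the motives `(P, p)` of
weight `2 j` as in `IsPart`. -/
def ClassInjective (j : ℕ) : Prop :=
  ∀ (P : 𝒱.Obj) (p : C.A (P.prod P)), IsPart 𝒲 H (2 * j) P p →
    ∀ z, C.Deg j z → HomTrivial H z → C.act p z = z → Null z

/-- The formal properties of the kernels `N X j ⊆ CH^j(X)` of the Abel-Jacobi maps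
`CH^j(X)_hom → J^(2j-1)(X) ⊗ ℚ`:
* they consist of homologically trivial classes and are stable under all correspondences;
* a correspondence acting as zero on `H^(2j-1)(X)` maps `CH^j(X)_hom` to the kernel of the
  Abel-Jacobi map of the target;
* the theorem of Abel: the kernel is zero for divisors. -/
structure IsAbelJacobiKernel (N : Kers C) : Prop where
  deg : ∀ (X : 𝒱.Obj) (j : ℕ) (z : C.A X), In (N X j) z → C.Deg j z ∧ HomTrivial H z
  stable : ∀ (X Y : 𝒱.Obj) (j i : ℕ) (Γ : C.A (X.prod Y)), C.Deg (X.dim + i - j) Γ →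
    ∀ z, In (N X j) z → In (N Y i) (C.act Γ z)
  kills : ∀ (X Y : 𝒱.Obj) (j i : ℕ) (Γ : C.A (X.prod Y)), C.Deg (X.dim + i - j) Γ →
    Kills H Γ (2 * j - 1) → ∀ z, C.Deg j z → HomTrivial H z → In (N Y i) (C.act Γ z)
  abel : ∀ (X : 𝒱.Obj) (z : C.A X), In (N X 1) z → Null z

/-- The conditions on a Bloch-Beilinson filtration on the Chow groups of the varieties in the class
`S` (`F X j ν` is `F^ν CH^j(X)`), except possibly for the condition that `F^2` is the kernel of the
Abel-Jacobi map: `F^0 = CH^j(X)`, `F^1 = CH^j(X)_hom`, `F^(j+1) = 0`, stability under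
correspondences `Γ`, and `Γ_* F^ν ⊆ F^(ν+1)` if `Γ` acts as zero on `H^(2j-ν)(X)`. -/
structure IsWeakOn (S : 𝒱.Obj → Prop) (F : Steps C) : Prop where
  anti : ∀ X, S X → ∀ (j ν : ℕ) (z : C.A X), In (F X j (ν + 1)) z → In (F X j ν) z
  zero : ∀ X, S X → ∀ (j : ℕ) (z : C.A X), In (F X j 0) z ↔ C.Deg j z
  one : ∀ X, S X → ∀ (j : ℕ) (z : C.A X), In (F X j 1) z ↔ C.Deg j z ∧ HomTrivial H z
  top : ∀ X, S X → ∀ (j : ℕ) (z : C.A X), In (F X j (j + 1)) z → Null z
  stable : ∀ X Y, S X → S Y → ∀ (j i ν : ℕ) (Γ : C.A (X.prod Y)), C.Deg (X.dim + i - j) Γ →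
    ∀ z, In (F X j ν) z → In (F Y i ν) (C.act Γ z)
  shift : ∀ X Y, S X → S Y → ∀ (j i ν : ℕ) (Γ : C.A (X.prod Y)), C.Deg (X.dim + i - j) Γ →
    Kills H Γ (2 * j - ν) → ∀ z, In (F X j ν) z → In (F Y i (ν + 1)) (C.act Γ z)

/-- `F` is a Bloch-Beilinson filtration on the Chow groups of the varieties in the class `S`
(conditions 1, 2, 3, 4 of the problem, `N` being the kernels of the Abel-Jacobi maps). -/
structure IsBlochBeilinsonOn (N : Kers C) (S : 𝒱.Obj → Prop) (F : Steps C) : Prop extends
    IsWeakOn H S F where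
  two : ∀ X, S X → ∀ (j : ℕ) (z : C.A X), In (F X j 2) z ↔ In (N X j) z

end weil

end Pool.Agent.K1H74.Mot
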